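import Mathlib

namespace Pool.Agent.P.MP_72c4d1_al

/-- A permutation of `ZMod n` is panmagic if `i ↦ σ i + i` and `i ↦ σ i - i` are bijections. -/
def Panmagic {n : ℕ} (σ : Equiv.Perm (ZMod n)) : Prop :=
  Function.Bijective (fun i : ZMod n => σ i + i) ∧ Function.Bijective (fun i : ZMod n => σ i - i)

/-- Affine permutations `i ↦ a i + b` with `a` a unit. -/
def IsAffine {n : ℕ} (σ : Equiv.Perm (ZMod n)) : Prop :=
  ∃ (a : (ZMod n)ˣ) (b : ZMod n), ∀ i : ZMod n, σ i = (a : ZMod n) * i + b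

/-- The lifted dihedral group: `i ↦ u i + b` with `u` a unit, `u ^ 2 ≡ 1` modulo `rad n`. -/
def liftedDihedral (n : ℕ) : Set (Equiv.Perm (ZMod n)) :=
  {π | ∃ (u : (ZMod n)ˣ) (b : ZMod n),
    (u : ZMod n).val ^ 2 ≡ 1 [MOD ∏ p ∈ n.primeFactors, p] ∧
      ∀ i : ZMod n, π i = (u : ZMod n) * i + b}

/-- The left coset `σ D` of the lifted dihedral group. -/
def coset {n : ℕ} (σ : Equiv.Perm (ZMod n)) : Set (Equiv.Perm (ZMod n)) :=
  {τ | ∃ π ∈ liftedDihedral n, τ = σ * π}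

end Pool.Agent.P.MP_72c4d1_al
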