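import Mathlib
import Pool.Agent.P.MP_72c4d1_al.Defs

namespace Pool.Agent.P.MP_72c4d1_al

open Finset

def rad (n : ℕ) : ℕ := ∏ p ∈ n.primeFactors, p

lemma rad_dvd (n : ℕ) : rad n ∣ n := Nat.prod_primeFactors_dvd n

noncomputable def red (n : ℕ) : ZMod n →+* ZMod (rad n) := ZMod.castHom (rad_dvd n) _

lemma cond_iff {n : ℕ} [NeZero n] (u : ZMod n) :
    u.val ^ 2 ≡ 1 [MOD ∏ p ∈ n.primeFactors, p] ↔ (red n u) ^ 2 = 1 := by
  have h : red n u = (u.val : ZMod (rad n)) := by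
    conv_lhs => rw [← ZMod.natCast_zmod_val u]
    simp only [red, map_natCast]
  rw [h]
  change u.val ^ 2 ≡ 1 [MOD rad n] ↔ _
  rw [← ZMod.natCast_eq_natCast_iff]
  push_cast
  rfl

lemma mem_iff {n : ℕ} [NeZero n] (π : Equiv.Perm (ZMod n)) :
    π ∈ liftedDihedral n ↔ ∃ (u : (ZMod n)ˣ) (b : ZMod n),
      (red n u) ^ 2 = 1 ∧ ∀ i : ZMod n, π i = (u : ZMod n) * i + b := by
  simp only [liftedDihedral, Set.mem_ofPred_eq, cond_iff]

def HH (n : ℕ) [NeZero n] : Subgroup (Equiv.Perm (ZMod n)) where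
  carrier := liftedDihedral n
  one_mem' := by
    rw [mem_iff]
    exact ⟨1, 0, by simp, by simp⟩
  mul_mem' := by
    intro a b ha hb
    rw [mem_iff] at ha hb ⊢
    obtain ⟨u, c, hu, ha⟩ := ha
    obtain ⟨v, d, hv, hb⟩ := hb
    refine ⟨u * v, u * d + c, ?_, ?_⟩
    · simp [mul_pow, hu, hv]
    · intro i
      simp only [Equiv.Perm.mul_apply, ha, hb, Units.val_mul]
      ring
  inv_mem' := by
    intro a ha
    rw [mem_iff] at ha ⊢
    obtain ⟨u, c, hu, ha⟩ := ha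
    refine ⟨u⁻¹, - (u⁻¹ : (ZMod n)ˣ) * c, ?_, ?_⟩
    · have h1 : red n (u⁻¹ : (ZMod n)ˣ) * red n u = 1 := by
        rw [← map_mul]; simp
      calc red n (u⁻¹ : (ZMod n)ˣ) ^ 2 = red n (u⁻¹ : (ZMod n)ˣ) ^ 2 * (red n u) ^ 2 := by
            rw [hu, mul_one]
        _ = (red n (u⁻¹ : (ZMod n)ˣ) * red n u) ^ 2 := by ring
        _ = 1 := by rw [h1, one_pow]
    · intro i
      rw [Equiv.Perm.inv_eq_iff_eq, ha]
      have h1 : (u : ZMod n) * (u⁻¹ : (ZMod n)ˣ) = 1 := by simp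
      linear_combination (c - i) * h1

lemma normalises {G : Type*} [Group G] (H : Subgroup G) (σ : G) (N : ℕ) (hN : 2 ≤ N)
    (hcl : ∀ l : List G, l.length = N → (∀ x ∈ l, ∃ π ∈ H, x = σ * π) →
      ∃ π ∈ H, l.prod = σ * π) :
    (∀ h ∈ H, σ * h * σ⁻¹ ∈ H) ∧ (∀ h ∈ H, σ⁻¹ * h * σ ∈ H) := by
  obtain ⟨k, rfl⟩ : ∃ k, N = k + 2 := ⟨N - 2, by omega⟩
  have key : ∀ h ∈ H, σ * h * σ ^ k ∈ H := by
    intro h hh
    obtain ⟨π, hπ, e⟩ := hcl (σ :: (σ * h) :: List.replicate k σ) (by simp) (by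
      intro x hx
      simp only [List.mem_cons, List.mem_replicate] at hx
      rcases hx with rfl | rfl | ⟨_, rfl⟩
      · exact ⟨1, H.one_mem, by simp⟩
      · exact ⟨h, hh, rfl⟩
      · exact ⟨1, H.one_mem, by simp⟩)
    simp only [List.prod_cons, List.prod_replicate] at e
    rw [mul_left_cancel e]
    exact hπ
  have hg : σ * σ ^ k ∈ H := by simpa using key 1 H.one_mem
  have h1 : ∀ h ∈ H, σ * h * σ⁻¹ ∈ H := by
    intro h hh
    have := H.mul_mem (key h hh) (H.inv_mem hg)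
    have e : σ * h * σ ^ k * (σ * σ ^ k)⁻¹ = σ * h * σ⁻¹ := by group
    rwa [e] at this
  have h2 : ∀ j : ℕ, ∀ h ∈ H, σ ^ j * h * (σ ^ j)⁻¹ ∈ H := by
    intro j
    induction j with
    | zero => intro h hh; simpa using hh
    | succ j ih =>
      intro h hh
      have := h1 _ (ih h hh)
      have e : σ * (σ ^ j * h * (σ ^ j)⁻¹) * σ⁻¹ = σ ^ (j + 1) * h * (σ ^ (j + 1))⁻¹ := by group
      rwa [e] at this
  refine ⟨h1, ?_⟩
  intro h hh
  have := h2 k _ (H.mul_mem (H.mul_mem (H.inv_mem hg) hh) hg)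
  have e : σ ^ k * ((σ * σ ^ k)⁻¹ * h * (σ * σ ^ k)) * (σ ^ k)⁻¹ = σ⁻¹ * h * σ := by group
  rwa [e] at this

lemma affine_of_normalises {n : ℕ} [NeZero n] (hodd : Odd n) (σ : Equiv.Perm (ZMod n))
    (h1 : ∀ h ∈ HH n, σ * h * σ⁻¹ ∈ HH n) (h2 : ∀ h ∈ HH n, σ⁻¹ * h * σ ∈ HH n) :
    IsAffine σ := by
  have hτ : Equiv.addRight (1 : ZMod n) ∈ HH n := by
    change _ ∈ liftedDihedral n
    rw [mem_iff]
    exact ⟨1, 1, by simp, by simp⟩
  have hι : Equiv.neg (ZMod n) ∈ HH n := by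
    change _ ∈ liftedDihedral n
    rw [mem_iff]
    exact ⟨-1, 0, by simp, by simp⟩
  obtain ⟨u, b, hu, hρ⟩ := (mem_iff _).1 (h1 _ hτ)
  obtain ⟨v, c, -, hη⟩ := (mem_iff _).1 (h2 _ hι)
  have step : ∀ x, σ (x + 1) = u * σ x + b := by
    intro x
    have := hρ (σ x)
    simpa using this
  have refl : ∀ x, σ (v * x + c) = - σ x := by
    intro x
    have := hη x
    rw [← this]
    simp
  have iter : ∀ (k : ℕ) (x : ZMod n),
      σ (x + k) = (u : ZMod n) ^ k * σ x + b * ∑ i ∈ range k, (u : ZMod n) ^ i := by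
    intro k
    induction k with
    | zero => intro x; simp
    | succ k ih =>
      intro x
      rw [Nat.cast_succ, ← add_assoc, step, ih, Finset.sum_range_succ']
      simp only [pow_succ, pow_zero, ← Finset.sum_mul]
      ring
  set m : ℕ := (v : ZMod n).val with hm
  have hmv : (m : ZMod n) = v := ZMod.natCast_zmod_val _
  have E : ∀ y : ZMod n, - (u * y + b) =
      (u : ZMod n) ^ m * (- y) + b * ∑ i ∈ range m, (u : ZMod n) ^ i := by
    intro y
    obtain ⟨x, rfl⟩ := σ.surjective y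
    rw [← refl x, ← iter, ← step, ← refl, hmv]
    congr 1
    ring
  have F : ∀ y : ZMod n, y = (u : ZMod n) ^ n * y + b * ∑ i ∈ range n, (u : ZMod n) ^ i := by
    intro y
    obtain ⟨x, rfl⟩ := σ.surjective y
    rw [← iter]
    simp
  have hun : (u : ZMod n) ^ n = 1 := by
    have a0 := F 0
    have a1 := F 1
    linear_combination a0 - a1
  have hum : (u : ZMod n) ^ m = u := by
    have a0 := E 0
    have a1 := E 1
    linear_combination a1 - a0
  have hb : IsUnit b := by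
    have := iter (σ.symm 1 - σ.symm 0).val (σ.symm 0)
    rw [ZMod.natCast_zmod_val] at this
    simp only [add_sub_cancel, Equiv.apply_symm_apply, mul_zero, zero_add] at this
    exact IsUnit.of_mul_eq_one _ this.symm
  have hG : ∑ i ∈ range m, (u : ZMod n) ^ i = -1 := by
    have a0 := E 0
    apply hb.mul_left_cancel
    linear_combination -a0
  have hru : red n u = 1 := by
    obtain ⟨k, hk⟩ := hodd
    have : (red n u) ^ (2 * k + 1) = 1 := by rw [← hk, ← map_pow, hun, map_one]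
    rw [pow_succ, pow_mul, hu, one_pow, one_mul] at this
    exact this
  have hmr : rad n ∣ m + 1 := by
    have := congrArg (red n) hG
    simp only [map_sum, map_pow, hru, one_pow, sum_const, card_range, nsmul_eq_mul, mul_one,
      map_neg, map_one] at this
    rw [← ZMod.natCast_eq_zero_iff]
    push_cast
    rw [this]; ring
  have hu1 : u = 1 := by
    rw [← orderOf_eq_one_iff]
    by_contra hne
    obtain ⟨p, hp, hpo⟩ := Nat.exists_prime_and_dvd hne
    have hon : orderOf u ∣ n := by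
      apply orderOf_dvd_of_pow_eq_one
      ext; simpa using hun
    have hom : m ≡ 1 [MOD orderOf u] := by
      rw [← pow_eq_pow_iff_modEq]
      ext; simpa using hum
    have hpn : p ∣ n := hpo.trans hon
    have hpr : p ∣ rad n := by
      apply Finset.dvd_prod_of_mem
      exact Nat.mem_primeFactors.2 ⟨hp, hpn, NeZero.ne n⟩
    have h3 : p ∣ m + 1 := hpr.trans hmr
    have h4 : m + 1 ≡ 2 [MOD p] := (hom.of_dvd hpo).add_right 1
    have h5 : p ∣ 2 := (Nat.modEq_zero_iff_dvd).1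
      (h4.symm.trans ((Nat.modEq_zero_iff_dvd).2 h3))
    have h6 : p = 2 := (Nat.prime_dvd_prime_iff_eq hp Nat.prime_two).1 h5
    subst h6
    exact (Nat.not_even_iff_odd.2 hodd) (even_iff_two_dvd.2 hpn)
  refine ⟨hb.unit, σ 0, ?_⟩
  intro i
  have := iter i.val 0
  rw [ZMod.natCast_zmod_val, zero_add, hu1] at this
  simp only [Units.val_one, one_pow, one_mul, sum_const, card_range, nsmul_eq_mul, mul_one,
    ZMod.natCast_zmod_val] at this
  rw [this, IsUnit.unit_spec]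
  ring

theorem main : ¬ ∃ (n : ℕ) (σ : Equiv.Perm (ZMod n)),
    5 ≤ n ∧ Nat.gcd n 6 = 1 ∧ ¬ IsAffine σ ∧
    (∃ N : ℕ, 2 ≤ N ∧ ∀ l : List (Equiv.Perm (ZMod n)), l.length = N →
      (∀ τ ∈ l, τ ∈ coset σ) → l.prod ∈ coset σ) ∧
    ∀ τ ∈ coset σ, Panmagic τ := by
  rintro ⟨n, σ, hn, hg, hna, ⟨N, hN, hcl⟩, -⟩
  have : NeZero n := ⟨by omega⟩
  have hodd : Odd n := by
    rw [← Nat.not_even_iff_odd]
    intro he
    have : 2 ∣ Nat.gcd n 6 := Nat.dvd_gcd (even_iff_two_dvd.1 he) (by norm_num)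
    omega
  obtain ⟨h1, h2⟩ := normalises (HH n) σ N hN hcl
  exact hna (affine_of_normalises hodd σ h1 h2)

end Pool.Agent.P.MP_72c4d1_al
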