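import Mathlib

/-! Permutations of a prime field that keep a set of differences are affine. -/

namespace Pool.Agent.P.MP_72c4d1_al.Ov

open Polynomial Finset

lemma exists_pow_sum {F : Type} [Field F] (V : Finset F) (hne : V.Nonempty) (h0 : (0 : F) ∉ V) :
    ∃ r, 1 ≤ r ∧ r ≤ V.card ∧ ∑ v ∈ V, v ^ r ≠ 0 := by
  classical
  by_contra hcon
  have hS : ∀ r, 1 ≤ r → r ≤ V.card → ∑ v ∈ V, v ^ r = 0 := fun r h1 h2 => by
    by_contra h3
    exact hcon ⟨r, h1, h2, h3⟩
  obtain ⟨v0, hv0⟩ := hne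
  let g : F[X] := ∏ v ∈ V.erase v0, (X - C v)
  have hd : g.natDegree < V.card := by
    have h1 : g.natDegree = (V.erase v0).card := natDegree_finsetProd_X_sub_C_eq_card _ _
    rw [h1]
    exact card_erase_lt_of_mem hv0
  have h1 : ∑ v ∈ V, v * g.eval v = 0 := by
    have h2 : ∀ v ∈ V, v * g.eval v = ∑ i ∈ range V.card, g.coeff i * v ^ (i + 1) := fun v _ => by
      rw [eval_eq_sum_range' hd, mul_sum]
      exact sum_congr rfl fun i _ => by ring
    rw [sum_congr rfl h2, sum_comm]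
    refine sum_eq_zero fun i hi => ?_
    rw [← mul_sum, hS (i + 1) (by omega) (mem_range.1 hi), mul_zero]
  rw [sum_eq_single_of_mem v0 hv0] at h1
  · rcases mul_eq_zero.1 h1 with h | h
    · exact h0 (h ▸ hv0)
    · rw [eval_prod, prod_eq_zero_iff] at h
      obtain ⟨v, hv, h⟩ := h
      rw [eval_sub, eval_X, eval_C, sub_eq_zero] at h
      exact (mem_erase.1 hv).1 h.symm
  · intro v hv hne
    rw [eval_prod, prod_eq_zero (mem_erase.2 ⟨hne, hv⟩), mul_zero]
    rw [eval_sub, eval_X, eval_C, sub_self]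

variable {p : ℕ} [hp : Fact p.Prime]

lemma affine_small (V : Finset (ZMod p)) (hne : V.Nonempty) (h0 : (0 : ZMod p) ∉ V)
    (hc : 2 * V.card < p) (k : Equiv.Perm (ZMod p)) (hk : ∀ i, ∀ v ∈ V, k (i + v) - k i ∈ V) :
    ∃ a b : ZMod p, ∀ i, k i = a * i + b := by
  classical
  have hp2 := hp.out.two_le
  obtain ⟨f, hfd, hf⟩ : ∃ f : (ZMod p)[X], f.natDegree < p ∧ ∀ i, f.eval i = k i := by
    refine ⟨Lagrange.interpolate univ id k, ?_, fun i =>
      Lagrange.eval_interpolate_at_node (v := id) k (Set.injOn_id _) (mem_univ i)⟩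
    have h1 := Lagrange.degree_interpolate_lt (s := univ) (v := id) k (Set.injOn_id _)
    rw [card_univ, ZMod.card] at h1
    by_cases h2 : Lagrange.interpolate univ id k = 0
    · rw [h2, natDegree_zero]
      omega
    · exact (natDegree_lt_iff_degree_lt h2).2 h1
  by_cases hd : f.natDegree ≤ 1
  · refine ⟨f.coeff 1, f.coeff 0, fun i => ?_⟩
    rw [← hf i]
    conv_lhs => rw [eq_X_add_C_of_natDegree_le_one hd]
    rw [eval_add, eval_mul, eval_C, eval_X, eval_C]
  exfalso
  have hex := exists_pow_sum V hne h0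
  obtain ⟨hr1, hr2, hr3⟩ := Nat.find_spec hex
  have hr4 : ∀ j, 1 ≤ j → j < Nat.find hex → ∑ v ∈ V, v ^ j = 0 := fun j h1 h2 => by
    by_contra h3
    exact Nat.find_min hex h2 ⟨h1, by omega, h3⟩
  generalize Nat.find hex = r at hr1 hr2 hr3 hr4
  obtain ⟨w, hw1, hw2⟩ : ∃ w, w * f.natDegree < p ∧ p ≤ 2 * (w * f.natDegree) := by
    have h1 := Nat.div_add_mod (p - 1) f.natDegree
    have h2 := Nat.mod_lt (p - 1) (show 0 < f.natDegree by omega)
    have h3 : 1 ≤ (p - 1) / f.natDegree := (Nat.one_le_div_iff (by omega)).2 (by omega)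
    have h4 := Nat.mul_le_mul_left f.natDegree h3
    refine ⟨(p - 1) / f.natDegree, ?_, ?_⟩ <;> rw [mul_comm _ f.natDegree] <;> omega
  have hf0 : f ≠ 0 := fun h => hd (by rw [h, natDegree_zero]; omega)
  have hF : (f ^ w).natDegree = w * f.natDegree := natDegree_pow f w
  have hLR : ∑ v ∈ V, taylor v (f ^ w) = ∑ v ∈ V, (C v + f) ^ w := by
    refine eq_of_natDegree_lt_card_of_eval_eq _ _ (f := id) Function.injective_id
      (fun i => ?_) ?_
    · rw [eval_finsetSum, eval_finsetSum]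
      simp only [id, taylor_eval, eval_pow, eval_add, eval_C, hf]
      refine sum_bij (fun v _ => k (i + v) - k i) (hk i) (fun a _ b _ e => ?_) ?_
        (fun v _ => by rw [sub_add_cancel])
      · exact add_left_cancel (k.injective (sub_left_injective e))
      · intro b hb
        obtain ⟨a, ha, e⟩ := surj_on_of_inj_on_of_card_le (s := V) (t := V)
          (fun v _ => k (i + v) - k i) (hk i)
          (fun a b _ _ e => add_left_cancel (k.injective (sub_left_injective e))) le_rfl b hb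
        exact ⟨a, ha, e.symm⟩
    · rw [ZMod.card, max_lt_iff]
      constructor
      · refine lt_of_le_of_lt (natDegree_sum_le_of_forall_le _ _ fun v _ => ?_) hw1
        rw [natDegree_taylor, hF]
      · refine lt_of_le_of_lt (natDegree_sum_le_of_forall_le _ _ fun v _ => ?_) hw1
        rw [natDegree_pow, natDegree_C_add]
  obtain ⟨m, hm⟩ : ∃ m, w * f.natDegree = r + m := ⟨w * f.natDegree - r, by omega⟩
  have hL : (∑ v ∈ V, taylor v (f ^ w)).coeff m = (f ^ w).coeff m * ∑ v ∈ V, v ^ 0 +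
      ((r + m).choose m : ZMod p) * (f ^ w).coeff (r + m) * ∑ v ∈ V, v ^ r := by
    have h1 : (hasseDeriv m (f ^ w)).natDegree < r + 1 :=
      lt_of_le_of_lt (natDegree_hasseDeriv_le _ _) (by omega)
    rw [finsetSum_coeff, sum_congr rfl fun v _ => (taylor_coeff v _ m).trans
      (eval_eq_sum_range' h1 v), sum_comm, sum_range_succ, ← mul_sum, hasseDeriv_coeff,
      sum_eq_single_of_mem 0 (mem_range.2 (by omega)), ← mul_sum, hasseDeriv_coeff, zero_add,
      Nat.choose_self, Nat.cast_one, one_mul]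
    intro j hj hj0
    rw [← mul_sum, hr4 j (by omega) (mem_range.1 hj), mul_zero]
  have hR : (∑ v ∈ V, (C v + f) ^ w).coeff m = (f ^ w).coeff m * ∑ v ∈ V, v ^ 0 := by
    have h1 : ∀ v ∈ V, ((C v + f) ^ w).coeff m = ∑ e ∈ range (w + 1),
        (f ^ (w - e)).coeff m * (w.choose e : ZMod p) * v ^ e := fun v _ => by
      rw [add_pow, finsetSum_coeff]
      refine sum_congr rfl fun e _ => ?_
      rw [← C_pow, ← C_eq_natCast, coeff_mul_C, coeff_C_mul]
      ring
    rw [finsetSum_coeff, sum_congr rfl h1, sum_comm,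
      sum_eq_single_of_mem 0 (mem_range.2 (by omega)), ← mul_sum, Nat.sub_zero,
      Nat.choose_zero_right, Nat.cast_one, mul_one]
    intro e he he0
    rw [← mul_sum]
    by_cases h2 : e < r
    · rw [hr4 e (by omega) h2, mul_zero]
    · rw [coeff_eq_zero_of_natDegree_lt, zero_mul, zero_mul]
      rw [natDegree_pow, Nat.sub_mul]
      have h3 : e * 2 ≤ e * f.natDegree := Nat.mul_le_mul_left e (by omega)
      omega
  rw [hLR, hR, left_eq_add, mul_eq_zero, mul_eq_zero] at hL
  rcases hL with (h | h) | h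
  · rw [ZMod.natCast_eq_zero_iff] at h
    have h1 := Nat.choose_mul_factorial_mul_factorial (show m ≤ r + m by omega)
    have h2 : p ∣ (r + m).factorial := h1 ▸ (h.mul_right _).mul_right _
    have := hp.out.dvd_factorial.1 h2
    omega
  · rw [← hm, ← hF, coeff_natDegree, leadingCoeff_eq_zero] at h
    exact pow_ne_zero w hf0 h
  · exact hr3 h

lemma affine_of_keep (U : Finset (ZMod p)) (hne : U.Nonempty) (h0 : (0 : ZMod p) ∉ U)
    (h2 : ∃ x, x ≠ 0 ∧ x ∉ U) (k : Equiv.Perm (ZMod p))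
    (hk : ∀ i v, k (i + v) - k i ∈ U ↔ v ∈ U) : ∃ a b : ZMod p, ∀ i, k i = a * i + b := by
  classical
  by_cases hc : 2 * U.card < p
  · exact affine_small U hne h0 hc k fun i v hv => (hk i v).2 hv
  · have hm : ∀ x, x ∈ (insert 0 U)ᶜ ↔ x ≠ 0 ∧ x ∉ U := fun x => by
      rw [mem_compl, mem_insert, not_or]
    obtain ⟨x, hx⟩ := h2
    refine affine_small (insert 0 U)ᶜ ⟨x, (hm x).2 hx⟩ (fun h => ((hm 0).1 h).1 rfl) ?_ k
      fun i v hv => (hm _).2 ⟨fun e => ((hm v).1 hv).1 ?_, fun e => ((hm v).1 hv).2 ((hk i v).1 e)⟩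
    · rw [card_compl, ZMod.card, card_insert_of_notMem h0]
      have := hp.out.two_le
      omega
    · exact add_eq_left.1 (k.injective (sub_eq_zero.1 e))

end Pool.Agent.P.MP_72c4d1_al.Ov
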