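import Pool.Agent.P.MP_72c4d1_al.SubMain
import Pool.Agent.P.MP_72c4d1_al.OvBurn

/-! Cosets of overgroups of the lifted dihedral group. -/

namespace Pool.Agent.P.MP_72c4d1_al.Ov

open Equiv

lemma ai {α : Type} (k : Perm α) (x : α) : k (k⁻¹ x) = x := k.apply_symm_apply x

lemma ia {α : Type} (k : Perm α) (x : α) : k⁻¹ (k x) = x := k.symm_apply_apply x

lemma prime_case {p : ℕ} [hp : Fact p.Prime] (K : Subgroup (Perm (ZMod p)))
    (hT : ∀ b, Equiv.addRight b ∈ K) (σ : Perm (ZMod p)) (hn : ∀ h ∈ K, σ * h * σ⁻¹ ∈ K)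
    (hP : ∀ k ∈ K, Function.Injective fun i => σ (k i) - i) : IsAffine σ := by
  classical
  let U : Finset (ZMod p) := Finset.univ.filter fun d => ∃ k ∈ K, k 1 - k 0 = d
  have hU : ∀ d, d ∈ U ↔ ∃ k ∈ K, k 1 - k 0 = d := fun d => by simp [U]
  have hs : ∀ i v, v ∈ U → ∃ k ∈ K, k 0 = i ∧ k 1 = i + v := fun i v hv => by
    obtain ⟨k, hk, e⟩ := (hU v).1 hv
    refine ⟨Equiv.addRight (i - k 0) * k, K.mul_mem (hT _) hk, ?_, ?_⟩
    · simp
    · rw [Perm.mul_apply, coe_addRight, ← e]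
      ring
  have hk : ∀ k ∈ K, ∀ i v, v ∈ U → k (i + v) - k i ∈ U := fun k hk i v hv => by
    obtain ⟨k', hk', e0, e1⟩ := hs i v hv
    exact (hU _).2 ⟨k * k', K.mul_mem hk hk', by rw [Perm.mul_apply, Perm.mul_apply, e0, e1]⟩
  have hx : ∃ x, x ≠ 0 ∧ x ∉ U := by
    refine ⟨σ⁻¹ 1 - σ⁻¹ 0, fun e => one_ne_zero (σ⁻¹.injective (sub_eq_zero.1 e)), fun h => ?_⟩
    obtain ⟨k, hk, e0, e1⟩ := hs (σ⁻¹ 0) _ h
    refine zero_ne_one (hP k hk (a₁ := 0) (a₂ := 1) ?_)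
    simp only [e0, e1, add_sub_cancel, ai, sub_self]
  have h0 : (0 : ZMod p) ∉ U := fun h => by
    obtain ⟨k, -, e⟩ := (hU 0).1 h
    exact one_ne_zero (k.injective (sub_eq_zero.1 e))
  have hρ := hn _ (hT 1)
  obtain ⟨a, b, hab⟩ := affine_of_keep U ⟨_, (hU _).2 ⟨1, K.one_mem, rfl⟩⟩ h0 hx
    (σ * Equiv.addRight 1 * σ⁻¹) fun i v => ⟨fun h => by
      have := hk _ (K.inv_mem hρ) ((σ * Equiv.addRight 1 * σ⁻¹ : Perm (ZMod p)) i) _ h
      rwa [add_sub_cancel, ia, ia, add_sub_cancel_left] at this,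
      hk _ hρ i v⟩
  have h1 : ∀ i, σ (i + 1) = a * σ i + b := fun i => by
    rw [← hab, Perm.mul_apply, Perm.mul_apply, ia, coe_addRight]
  have h2 : ∀ i, a * σ i + b ≠ σ i := fun i e =>
    one_ne_zero (add_eq_left.1 (σ.injective ((h1 i).trans e)))
  have ha : a = 1 := by
    by_contra ha
    refine h2 (σ⁻¹ (b / (1 - a))) ?_
    have : 1 - a ≠ 0 := sub_ne_zero.2 (Ne.symm ha)
    rw [ai]
    field_simp
    ring
  have hb : b ≠ 0 := fun e => h2 0 (by rw [ha, e, one_mul, add_zero])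
  have h3 : ∀ m : ℕ, σ m = b * m + σ 0 := fun m => by
    induction m with
    | zero => simp
    | succ m ih =>
      rw [Nat.cast_succ, h1, ih, ha]
      ring
  refine ⟨Units.mk0 b hb, σ 0, fun i => ?_⟩
  have := h3 i.val
  rwa [ZMod.natCast_zmod_val] at this

section ring

variable {R : Type} [CommRing R]

/-- Maps with slope `u` modulo `q` and with slope `u` on every class modulo `q`. -/
def Sl (q u : R) (k : R → R) : Prop :=
  (∀ i j, k (i + q * j) = k i + u * (q * j)) ∧ ∀ i j, q ∣ k i - k j - u * (i - j)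

lemma Sl.inj {q u a e : R} {k : R → R} (h : Sl q u k) (hu : IsUnit (a * u + e)) :
    Function.Injective fun i => a * k i + e * i := by
  intro x y hxy
  have h1 : a * k x + e * x = a * k y + e * y := hxy
  obtain ⟨c, hc⟩ := h.2 x y
  obtain ⟨t, ht⟩ := hu.exists_left_inv
  have h2 : x = y + q * (-(t * a * c)) := by
    linear_combination t * h1 - t * a * hc - (x - y) * ht
  have h3 := h.1 y (-(t * a * c))
  rw [← h2] at h3
  linear_combination t * h1 - t * a * h3 - (x - y) * ht + t * a * u * h2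

lemma Sl.comp {q u v : R} {k l : R → R} (h : Sl q u k) (h' : Sl q v l) :
    Sl q (u * v) fun i => k (l i) := by
  refine ⟨fun i j => ?_, fun i j => ?_⟩
  · change k (l (i + q * j)) = k (l i) + _
    rw [h'.1, mul_left_comm, h.1]
    ring
  · obtain ⟨c, hc⟩ := h.2 (l i) (l j)
    obtain ⟨d, hd⟩ := h'.2 i j
    exact ⟨c + u * d, by linear_combination hc + u * hd⟩

lemma Sl.inv {q u v : R} {k l : R → R} (h : Sl q u k) (huv : v * u = 1)
    (hk : Function.Injective k) (hl : ∀ i, k (l i) = i) : Sl q v l := by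
  refine ⟨fun i j => hk ?_, fun i j => ?_⟩
  · rw [mul_left_comm, h.1, hl, hl]
    linear_combination (-(q * j)) * huv
  · obtain ⟨c, hc⟩ := h.2 (l i) (l j)
    rw [hl, hl] at hc
    exact ⟨-(v * c), by linear_combination (-v) * hc - (l i - l j) * huv⟩

lemma Sl.lin (q u b : R) : Sl q u fun i => u * i + b :=
  ⟨fun i j => by ring, fun i j => ⟨0, by ring⟩⟩

end ring

/-- The overgroup. -/
def KK (n : ℕ) (q : ZMod n) : Subgroup (Perm (ZMod n)) where
  carrier := {k | ∃ u : (ZMod n)ˣ, red n u ^ 2 = 1 ∧ Sl q u k}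
  one_mem' := ⟨1, by simp, fun i j => by simp, fun i j => by simp⟩
  mul_mem' := by
    rintro k l ⟨u, hu, h⟩ ⟨v, hv, h'⟩
    exact ⟨u * v, by rw [Units.val_mul, map_mul, mul_pow, hu, hv, one_mul], h.comp h'⟩
  inv_mem' := by
    rintro k ⟨u, hu, h⟩
    refine ⟨u⁻¹, ?_, h.inv u.inv_mul k.injective (ai k)⟩
    have : red n (↑u⁻¹ * ↑u) ^ 2 = 1 := by rw [u.inv_mul, map_one, one_pow]
    rwa [map_mul, mul_pow, hu, mul_one] at this

lemma closed {G : Type} [Group G] (K : Subgroup G) (σ : G) (hσ : ∀ h ∈ K, σ⁻¹ * h * σ ∈ K)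
    (l : List G) (hl : ∀ τ ∈ l, ∃ π ∈ K, τ = σ * π) : ∃ π ∈ K, l.prod = σ ^ l.length * π := by
  have h1 : ∀ m : ℕ, ∀ h ∈ K, (σ ^ m)⁻¹ * h * σ ^ m ∈ K := fun m => by
    induction m with
    | zero => intro h hh; simpa using hh
    | succ m ih =>
      intro h hh
      have e : σ⁻¹ * ((σ ^ m)⁻¹ * h * σ ^ m) * σ = (σ ^ (m + 1))⁻¹ * h * σ ^ (m + 1) := by group
      exact e ▸ hσ _ (ih h hh)
  induction l with
  | nil => exact ⟨1, K.one_mem, by simp⟩
  | cons τ l ih =>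
    obtain ⟨π, hπ, rfl⟩ := hl τ List.mem_cons_self
    obtain ⟨ρ, hρ, e⟩ := ih fun x hx => hl x (List.mem_cons_of_mem _ hx)
    refine ⟨_, K.mul_mem (h1 l.length π hπ) hρ, ?_⟩
    rw [List.prod_cons, e, List.length_cons]
    group

lemma six_ne {n : ℕ} (h6 : Nat.gcd n 6 = 1) (q : ℕ) (hq : q.Prime) (hqn : q ∣ n) (c : ℕ)
    (hc : c ∣ 6) : (c : ZMod q) ≠ 0 := fun h => hq.one_lt.ne' (Nat.eq_one_of_dvd_coprimes h6 hqn
      (((ZMod.natCast_eq_zero_iff _ _).1 h).trans hc))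

lemma two_unit {n : ℕ} [NeZero n] (h6 : Nat.gcd n 6 = 1) : IsUnit (2 : ZMod n) :=
  unit_of_primes fun q hq hqn => by
    rw [map_ofNat]
    simpa using six_ne h6 q hq hqn 2 (by norm_num)

lemma slope_unit {n : ℕ} [NeZero n] (h6 : Nat.gcd n 6 = 1) (u e : ZMod n)
    (hu : red n u ^ 2 = 1) (he : e ^ 2 = 1) : IsUnit (2 * u + e) :=
  unit_of_primes fun q hq hqn h => by
    have hr : q ∣ rad n :=
      Finset.dvd_prod_of_mem _ (Nat.mem_primeFactors.2 ⟨hq, hqn, NeZero.ne n⟩)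
    have h1 : ZMod.castHom hqn (ZMod q) u ^ 2 = 1 := by
      rw [← ZMod.castHom_comp hr (rad_dvd n), RingHom.comp_apply, ← map_pow]
      exact (congrArg _ hu).trans (map_one _)
    have h3 := congrArg (ZMod.castHom hqn (ZMod q)) he
    rw [map_pow, map_one] at h3
    rw [map_add, map_mul, map_ofNat] at h
    refine six_ne h6 q hq hqn 3 (by norm_num) ?_
    push_cast
    linear_combination (2 * ZMod.castHom hqn (ZMod q) u - ZMod.castHom hqn (ZMod q) e) * h -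
      4 * h1 + h3

lemma composite_case (n : ℕ) (h5 : 5 ≤ n) (h6 : Nat.gcd n 6 = 1) (hn : ¬ n.Prime) :
    ∃ (K : Subgroup (Perm (ZMod n))) (σ : Perm (ZMod n)), liftedDihedral n ⊆ K ∧ ¬ IsAffine σ ∧
      (∃ N : ℕ, 2 ≤ N ∧ ∀ l : List (Perm (ZMod n)), l.length = N →
        (∀ τ ∈ l, ∃ π ∈ K, τ = σ * π) → ∃ π ∈ K, l.prod = σ * π) ∧
      ∀ π ∈ K, Panmagic (σ * π) := by
  classical
  have : NeZero n := ⟨by omega⟩
  have hp : n.minFac.Prime := Nat.minFac_prime (by omega)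
  have hpn : n.minFac ∣ n := Nat.minFac_dvd n
  have hlt : n.minFac < n := (Nat.not_prime_iff_minFac_lt (by omega)).1 hn
  generalize n.minFac = p at hp hpn hlt
  have h2 : IsUnit (2 : ZMod n) := two_unit h6
  have hun := @slope_unit n _ h6
  have hpu : ¬ IsUnit (p : ZMod n) := fun h => (ZMod.isUnit_prime_iff_not_dvd hp).1 h hpn
  let f : ZMod n → ZMod n := fun i => if (p : ZMod n) ∣ i then i + p else i
  have hf : Sl (p : ZMod n) 1 f := by
    refine ⟨fun i j => ?_, fun i j => ?_⟩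
    · simp only [f, dvd_add_left (dvd_mul_right (p : ZMod n) j)]
      split_ifs <;> ring
    · simp only [f]
      split_ifs
      exacts [⟨0, by ring⟩, ⟨1, by ring⟩, ⟨-1, by ring⟩, ⟨0, by ring⟩]
  have hfi : Function.Injective f := by
    simpa using hf.inj (a := 1) (e := 0) (by simp)
  let k0 : Perm (ZMod n) := Equiv.ofBijective f (Finite.injective_iff_bijective.1 hfi)
  have hk0 : k0 ∈ KK n p := ⟨1, by simp, hf⟩
  let s : Perm (ZMod n) := h2.unit.mulLeft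
  have hs : ∀ i, s i = 2 * i := fun i => rfl
  obtain ⟨t, ht⟩ := h2.exists_left_inv
  have hs' : ∀ i, s⁻¹ i = t * i := fun i => by
    rw [Perm.inv_eq_iff_eq, hs]
    linear_combination (-i) * ht
  have hsK : ∀ h ∈ KK n p, s⁻¹ * h * s ∈ KK n p := by
    rintro h ⟨u, hu, hh⟩
    have h1 := ((Sl.lin (p : ZMod n) t 0).comp hh).comp (Sl.lin (p : ZMod n) 2 0)
    have e : t * (u : ZMod n) * 2 = u := by linear_combination (u : ZMod n) * ht
    rw [e] at h1
    refine ⟨u, hu, ?_⟩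
    have e' : ⇑(s⁻¹ * h * s) = fun i => t * h (2 * i + 0) + 0 := funext fun i => by
      rw [Perm.mul_apply, Perm.mul_apply, hs', hs, add_zero, add_zero]
    rw [e']
    exact h1
  refine ⟨KK n p, s * k0, fun π hπ => ?_, ?_, ⟨orderOf (s * k0) + 1, ?_, fun l hl h => ?_⟩, ?_⟩
  · obtain ⟨u, b, hu, e⟩ := (mem_iff π).1 hπ
    exact ⟨u, hu, (funext e : ⇑π = _) ▸ Sl.lin _ _ b⟩
  · rintro ⟨a, b, hab⟩
    have e0 : 2 * f 0 = a * 0 + b := hab 0
    have e1 : 2 * f 1 = a * 1 + b := hab 1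
    have e2 : 2 * f 2 = a * 2 + b := hab 2
    simp only [f] at e0 e1 e2
    rw [if_pos (dvd_zero _)] at e0
    rw [if_neg fun h => hpu (isUnit_of_dvd_one h)] at e1
    rw [if_neg fun h => hpu (isUnit_of_dvd_unit h h2)] at e2
    have e3 : (p : ZMod n) = 0 := by linear_combination t * e0 - 2 * t * e1 + t * e2 - p * ht
    exact Nat.not_dvd_of_pos_of_lt hp.pos hlt ((ZMod.natCast_eq_zero_iff _ _).1 e3)
  · have := orderOf_pos (s * k0)
    omega
  · obtain ⟨π, hπ, e⟩ := closed (KK n p) (s * k0) (fun h hh => by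
      have e : k0⁻¹ * (s⁻¹ * h * s) * k0 = (s * k0)⁻¹ * h * (s * k0) := by group
      exact e ▸ (KK n p).mul_mem ((KK n p).mul_mem ((KK n p).inv_mem hk0) (hsK h hh)) hk0) l h
    rw [hl, pow_succ, pow_orderOf_eq_one, one_mul] at e
    exact ⟨π, hπ, e⟩
  · intro π hπ
    obtain ⟨u, hu, h⟩ := (KK n p).mul_mem hk0 hπ
    have h1 := h.inj (hun u 1 hu (by ring))
    have h3 := h.inj (hun u (-1) hu (by ring))
    simp only [one_mul] at h1
    simp only [neg_mul, one_mul, ← sub_eq_add_neg] at h3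
    exact ⟨Finite.injective_iff_bijective.1 h1, Finite.injective_iff_bijective.1 h3⟩

theorem overgroups (n : ℕ) (h5 : 5 ≤ n) (h6 : Nat.gcd n 6 = 1) :
    (∃ (K : Subgroup (Perm (ZMod n))) (σ : Perm (ZMod n)), liftedDihedral n ⊆ K ∧ ¬ IsAffine σ ∧
      (∃ N : ℕ, 2 ≤ N ∧ ∀ l : List (Perm (ZMod n)), l.length = N →
        (∀ τ ∈ l, ∃ π ∈ K, τ = σ * π) → ∃ π ∈ K, l.prod = σ * π) ∧
      ∀ π ∈ K, Panmagic (σ * π)) ↔ ¬ n.Prime := by
  refine ⟨?_, composite_case n h5 h6⟩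
  rintro ⟨K, σ, hD, hσ, ⟨N, hN, hc⟩, hP⟩ hp
  have := Fact.mk hp
  exact hσ (prime_case K (fun b => hD ((mem_iff _).2 ⟨1, b, by simp, fun i => by simp⟩)) σ
    (normalises K σ N hN hc).1 fun k hk => (hP k hk).2.1)

end Pool.Agent.P.MP_72c4d1_al.Ov
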