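import Pool.Agent.P.MP_72c4d1_al.OvMain

/-! A coset without affine elements when the modulus is not square-free. -/

namespace Pool.Agent.P.MP_72c4d1_al.Ov

open Equiv

lemma inj_cubic {R : Type} [CommRing R] {m c : R} (hm : m * m = 0) (hc : IsUnit c)
    (a0 a1 a2 a3 : R) :
    Function.Injective fun i : R => c * i + a0 + m * (a1 * i + a2 * i ^ 2 + a3 * i ^ 3) := by
  intro x y h
  have h1 : c * x + a0 + m * (a1 * x + a2 * x ^ 2 + a3 * x ^ 3) =
      c * y + a0 + m * (a1 * y + a2 * y ^ 2 + a3 * y ^ 3) := h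
  obtain ⟨t, ht⟩ := hc.exists_left_inv
  linear_combination (t ^ 2 * (c - m * (a1 + a2 * (x + y) + a3 * (x ^ 2 + x * y + y ^ 2)))) * h1 +
    t ^ 2 * (a1 + a2 * (x + y) + a3 * (x ^ 2 + x * y + y ^ 2)) ^ 2 * (x - y) * hm -
    (x - y) * (t * c + 1) * ht

lemma cube {R : Type} [CommRing R] {m : R} (hm : m * m = 0) (X E : R) :
    m * (X + m * E) ^ 3 = m * X ^ 3 := by
  linear_combination (3 * X ^ 2 * E + 3 * X * m * E ^ 2 + m ^ 2 * E ^ 3) * hm

/-- Quadratic maps over the lifted dihedral group, as a monoid. -/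
def QM {n : ℕ} {m : ZMod n} (hm : m * m = 0) (hr : red n m = 0) : Submonoid (Perm (ZMod n)) where
  carrier := {k | ∃ u b α : ZMod n, red n u ^ 2 = 1 ∧ ∀ i, k i = u * i + b + m * (α * i ^ 2)}
  one_mem' := ⟨1, 0, 0, by simp, fun i => by simp⟩
  mul_mem' := by
    rintro k l ⟨u, b, α, hu, h⟩ ⟨v, c, β, hv, h'⟩
    refine ⟨u * v + m * (2 * α * v * c), u * c + b + m * α * c ^ 2, u * β + α * v ^ 2, ?_,
      fun i => ?_⟩
    · rw [map_add, map_mul, map_mul, hr, zero_mul, add_zero, mul_pow, hu, hv, one_mul]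
    · rw [Perm.mul_apply, h, h']
      linear_combination (α * (2 * (v * i + c) * β * i ^ 2 + m * β ^ 2 * i ^ 4)) * hm

/-- The same set as a group. -/
def QG {n : ℕ} [NeZero n] {m : ZMod n} (hm : m * m = 0) (hr : red n m = 0) :
    Subgroup (Perm (ZMod n)) where
  toSubmonoid := QM hm hr
  inv_mem' := fun {k} hk => Submonoid.powers_le.2 hk
    (mem_powers_iff_mem_zpowers.2 (Subgroup.inv_mem _ (Subgroup.mem_zpowers k)))

theorem pure_coset (n : ℕ) (h6 : Nat.gcd n 6 = 1) (hsq : ¬ Squarefree n) :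
    ∃ (K : Subgroup (Perm (ZMod n))) (σ : Perm (ZMod n)), liftedDihedral n ⊆ K ∧
      (∃ N : ℕ, 2 ≤ N ∧ ∀ l : List (Perm (ZMod n)), l.length = N →
        (∀ τ ∈ l, ∃ π ∈ K, τ = σ * π) → ∃ π ∈ K, l.prod = σ * π) ∧
      ∀ π ∈ K, Panmagic (σ * π) ∧ ¬ IsAffine (σ * π) := by
  have : NeZero n := ⟨fun h => by simp [h] at h6⟩
  obtain ⟨p, hp, r, hpn⟩ : ∃ p : ℕ, p.Prime ∧ p * p ∣ n := by
    simpa [Nat.squarefree_iff_prime_squarefree] using hsq
  have hn0 : (p : ZMod n) * p * r = 0 := by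
    rw [← Nat.cast_mul, ← Nat.cast_mul, ← hpn, ZMod.natCast_self]
  obtain ⟨m, hmd⟩ : ∃ m : ZMod n, m = ((p * r : ℕ) : ZMod n) := ⟨_, rfl⟩
  have hm : m * m = 0 := by
    rw [hmd, Nat.cast_mul]
    linear_combination (r : ZMod n) * hn0
  have hd : p ∣ n := ⟨p * r, by rw [hpn, mul_assoc]⟩
  have hr : red n m = 0 := by
    rw [hmd, map_natCast, ZMod.natCast_eq_zero_iff]
    refine Finset.prod_primes_dvd _ (fun q hq => (Nat.prime_of_mem_primeFactors hq).prime)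
      fun q hq => ?_
    have h1 := Nat.dvd_of_mem_primeFactors hq
    rw [hpn, mul_assoc] at h1
    exact ((Nat.prime_of_mem_primeFactors hq).dvd_mul.1 h1).elim (fun h => h.mul_right r) id
  have hm0 : m ≠ 0 := fun h => by
    rw [hmd, ZMod.natCast_eq_zero_iff] at h
    have h1 : 0 < p * r := Nat.pos_of_ne_zero fun e => NeZero.ne n (by
      rw [hpn, mul_assoc, e, mul_zero])
    have h2 := Nat.le_of_dvd h1 h
    have h3 : 2 * (p * r) ≤ p * (p * r) := Nat.mul_le_mul_right _ hp.two_le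
    rw [← mul_assoc p, ← hpn] at h3
    omega
  have hmu : ∀ u : ZMod n, red n u ^ 2 = 1 → m * (u ^ 2 - 1) = 0 := fun u hu => by
    have h1 : red n (u ^ 2 - 1) = 0 := by rw [map_sub, map_pow, hu, map_one, sub_self]
    rw [← ZMod.natCast_zmod_val (u ^ 2 - 1), map_natCast, ZMod.natCast_eq_zero_iff] at h1
    have h2 : p ∣ rad n := Finset.dvd_prod_of_mem _ (Nat.mem_primeFactors.2 ⟨hp, hd, NeZero.ne n⟩)
    obtain ⟨y, hy⟩ := h2.trans h1
    rw [← ZMod.natCast_zmod_val (u ^ 2 - 1), hy, hmd, Nat.cast_mul, Nat.cast_mul]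
    linear_combination (y : ZMod n) * hn0
  have h2 : IsUnit (2 : ZMod n) := two_unit h6
  have h3 : IsUnit (2 * 1 + 1 : ZMod n) := slope_unit h6 1 1 (by simp) (by simp)
  obtain ⟨σ, hσ⟩ : ∃ σ : Perm (ZMod n), ∀ i, σ i = 2 * i + m * i ^ 3 :=
    ⟨Equiv.ofBijective _ (Finite.injective_iff_bijective.1 (inj_cubic hm h2 0 0 0 1)),
      fun i => by rw [Equiv.ofBijective_apply]; ring⟩
  obtain ⟨t, ht⟩ := h2.exists_left_inv
  have hN : ∀ h ∈ QG hm hr, σ⁻¹ * h * σ ∈ QG hm hr := by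
    rintro h ⟨u, b, α, hu, hh⟩
    refine ⟨u + m * (-(3 * t * u * (t * b) ^ 2)), t * b - t * m * (t * b) ^ 3,
      2 * α - 3 * t * u ^ 2 * (t * b), ?_, fun i => ?_⟩
    · rw [map_add, map_mul, hr, zero_mul, add_zero, hu]
    · rw [Perm.mul_apply, Perm.mul_apply, Perm.inv_eq_iff_eq, hh, hσ, hσ]
      linear_combination (α * (4 * i ^ 4 + m * i ^ 6)) * hm -
        cube hm (u * i + t * b) (-(3 * t * u * (t * b) ^ 2 * i) - t * (t * b) ^ 3 +
          (2 * α - 3 * t * u ^ 2 * (t * b)) * i ^ 2) - u * i ^ 3 * hmu u hu +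
        (-b + m * (3 * u * (t * b) ^ 2 * i + (t * b) ^ 3 + 3 * u ^ 2 * (t * b) * i ^ 2)) * ht
  refine ⟨QG hm hr, σ, fun π hπ => ?_, ⟨orderOf σ + 1, ?_, fun l hl h => ?_⟩, ?_⟩
  · obtain ⟨u, b, hu, e⟩ := (mem_iff π).1 hπ
    exact ⟨u, b, 0, hu, fun i => by rw [e]; ring⟩
  · have := orderOf_pos σ
    omega
  · obtain ⟨π, hπ, e⟩ := closed _ σ hN l h
    rw [hl, pow_succ, pow_orderOf_eq_one, one_mul] at e
    exact ⟨π, hπ, e⟩
  · rintro π ⟨v, c, β, hv, hπ⟩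
    have hf : ∀ e i, (σ * π) i + e * i = (2 * v + e) * i + (2 * c + m * c ^ 3) +
        m * (3 * v * c ^ 2 * i + (2 * β + 3 * v ^ 2 * c) * i ^ 2 + v ^ 3 * i ^ 3) := fun e i => by
      rw [Perm.mul_apply, hσ, hπ]
      linear_combination cube hm (v * i + c) (β * i ^ 2)
    have hi : ∀ e : ZMod n, e ^ 2 = 1 → Function.Bijective fun i => (σ * π) i + e * i :=
      fun e he => Finite.injective_iff_bijective.1
        (funext (hf e) ▸ inj_cubic hm (slope_unit h6 v e hv he) _ _ _ _)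
    refine ⟨⟨by simpa using hi 1 (by ring), ?_⟩, ?_⟩
    · simpa [sub_eq_add_neg] using hi (-1) (by ring)
    · rintro ⟨a, b, hab⟩
      have e0 := hf 0 0
      have e1 := hf 0 1
      have e2 := hf 0 2
      have e3 := hf 0 3
      rw [hab] at e0 e1 e2 e3
      refine hm0 (h3.mul_right_eq_zero.1 ?_)
      linear_combination (-(t * v)) * (e3 - 3 * e2 + 3 * e1 - e0) -
        6 * t * (v ^ 2 + 1) * hmu v hv - 3 * m * ht

end Pool.Agent.P.MP_72c4d1_al.Ov
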