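import Pool.Agent.P.MP_72c4d1_al.Defs

namespace Pool.Agent.P.MP_72c4d1_al

/-- The left coset `σ H` of the group `H` of the maps `i ↦ u i + b` with `u ∈ U`. -/
def cosetOf {n : ℕ} (U : Subgroup (ZMod n)ˣ) (σ : Equiv.Perm (ZMod n)) :
    Set (Equiv.Perm (ZMod n)) :=
  {τ | ∃ u ∈ U, ∃ b : ZMod n, ∀ i : ZMod n, τ i = σ ((u : ZMod n) * i + b)}

end Pool.Agent.P.MP_72c4d1_al
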