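import Pool.Agent.P.MP_72c4d1_al.SubDefs
import Pool.Agent.P.MP_72c4d1_al.Main

namespace Pool.Agent.P.MP_72c4d1_al

open Finset

variable {n : ℕ}

/-- The group of the maps `i ↦ u i + b` with `u ∈ U`. -/
def affOf (U : Subgroup (ZMod n)ˣ) : Subgroup (Equiv.Perm (ZMod n)) where
  carrier := {π | ∃ u ∈ U, ∃ b : ZMod n, ∀ i : ZMod n, π i = (u : ZMod n) * i + b}
  one_mem' := ⟨1, U.one_mem, 0, by simp⟩
  mul_mem' := by
    rintro a b ⟨u, hu, c, ha⟩ ⟨v, hv, d, hb⟩
    refine ⟨u * v, U.mul_mem hu hv, u * d + c, fun i => ?_⟩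
    simp only [Equiv.Perm.mul_apply, ha, hb, Units.val_mul]
    ring
  inv_mem' := by
    rintro a ⟨u, hu, c, ha⟩
    refine ⟨u⁻¹, U.inv_mem hu, - (u⁻¹ : (ZMod n)ˣ) * c, fun i => ?_⟩
    rw [Equiv.Perm.inv_eq_iff_eq, ha]
    have h1 : (u : ZMod n) * (u⁻¹ : (ZMod n)ˣ) = 1 := by simp
    linear_combination (c - i) * h1

/-- The affine permutation with given data. -/
def affPerm (u : (ZMod n)ˣ) (b : ZMod n) : Equiv.Perm (ZMod n) :=
  (Equiv.addRight b) * (Units.mulLeft u)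

lemma affPerm_apply (u : (ZMod n)ˣ) (b i : ZMod n) : affPerm u b i = (u : ZMod n) * i + b := rfl

lemma affPerm_mem {U : Subgroup (ZMod n)ˣ} {u : (ZMod n)ˣ} (hu : u ∈ U) (b : ZMod n) :
    affPerm u b ∈ affOf U := ⟨u, hu, b, fun _ => rfl⟩

lemma mem_cosetOf {U : Subgroup (ZMod n)ˣ} {σ τ : Equiv.Perm (ZMod n)} :
    τ ∈ cosetOf U σ ↔ ∃ π ∈ affOf U, τ = σ * π := by
  constructor
  · rintro ⟨u, hu, b, h⟩
    exact ⟨affPerm u b, affPerm_mem hu b, Equiv.ext h⟩
  · rintro ⟨π, ⟨u, hu, b, h⟩, rfl⟩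
    exact ⟨u, hu, b, fun i => by rw [Equiv.Perm.mul_apply, h]⟩

lemma closed_of_normalises {G : Type*} [Group G] [Finite G] (H : Subgroup G) (σ : G)
    (h : ∀ π ∈ H, σ⁻¹ * π * σ ∈ H) :
    ∃ N : ℕ, 2 ≤ N ∧ ∀ l : List G, l.length = N → (∀ x ∈ l, ∃ π ∈ H, x = σ * π) →
      ∃ π ∈ H, l.prod = σ * π := by
  have h2 : ∀ j : ℕ, ∀ π ∈ H, (σ ^ j)⁻¹ * π * σ ^ j ∈ H := by
    intro j
    induction j with
    | zero => intro π hπ; simpa using hπ
    | succ j ih =>
      intro π hπ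
      have := h _ (ih π hπ)
      have e : σ⁻¹ * ((σ ^ j)⁻¹ * π * σ ^ j) * σ = (σ ^ (j + 1))⁻¹ * π * σ ^ (j + 1) := by group
      rwa [e] at this
  have h3 : ∀ l : List G, (∀ x ∈ l, ∃ π ∈ H, x = σ * π) →
      ∃ π ∈ H, l.prod = σ ^ l.length * π := by
    intro l
    induction l with
    | nil => intro _; exact ⟨1, H.one_mem, by simp⟩
    | cons x l ih =>
      intro hl
      obtain ⟨π, hπ, e⟩ := ih fun y hy => hl y (List.mem_cons_of_mem _ hy)
      obtain ⟨ρ, hρ, rfl⟩ := hl x List.mem_cons_self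
      refine ⟨_, H.mul_mem (h2 l.length ρ hρ) hπ, ?_⟩
      rw [List.prod_cons, e, List.length_cons]
      group
  refine ⟨orderOf σ + 1, by have := orderOf_pos σ; omega, fun l hl hx => ?_⟩
  obtain ⟨π, hπ, e⟩ := h3 l hx
  exact ⟨π, hπ, by rw [e, hl, pow_succ, pow_orderOf_eq_one, one_mul]⟩

lemma unit_of_primes [NeZero n] {x : ZMod n}
    (h : ∀ (q : ℕ) (_ : q.Prime) (hq : q ∣ n), ZMod.castHom hq (ZMod q) x ≠ 0) : IsUnit x := by
  rw [← ZMod.natCast_zmod_val x, ZMod.isUnit_iff_coprime]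
  refine Nat.coprime_of_dvd fun q hq h1 h2 => h q hq h2 ?_
  rw [← ZMod.natCast_zmod_val x, map_natCast, ZMod.natCast_eq_zero_iff]
  exact h1

lemma cast_eq_iff [NeZero n] {q : ℕ} (hq : q ∣ n) (x : ZMod n) (c : ℕ) :
    ZMod.castHom hq (ZMod q) x = c ↔ x.val ≡ c [MOD q] := by
  conv_lhs => rw [← ZMod.natCast_zmod_val x, map_natCast]
  exact ZMod.natCast_eq_natCast_iff _ _ _

lemma not_const {q : ℕ} (hq : q.Prime) (hqn : q ∣ n) {f : ZMod n → ZMod n}
    (hf : Function.Surjective f) (c : ZMod q) : ¬ ∀ x, ZMod.castHom hqn (ZMod q) (f x) = c := by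
  intro h
  have := Fact.mk hq
  obtain ⟨x, hx⟩ := hf 0
  obtain ⟨y, hy⟩ := hf 1
  have h0 := h x
  have h1 := h y
  rw [hx, map_zero] at h0
  rw [hy, map_one, ← h0] at h1
  exact one_ne_zero h1

lemma binom3 {R : Type*} [CommRing R] (d : R) (k : ℕ) :
    ∃ e, (1 + d) ^ k = 1 + k * d + (k.choose 2 : ℕ) * d ^ 2 + d ^ 3 * e := by
  induction k with
  | zero => exact ⟨0, by simp⟩
  | succ k ih =>
    obtain ⟨e, he⟩ := ih
    refine ⟨e + e * d + (k.choose 2 : ℕ), ?_⟩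
    rw [pow_succ, he, Nat.choose_succ_succ' k 1, Nat.choose_one_right]
    push_cast
    ring

lemma one_add_pow_sq {R : Type*} [CommRing R] {k : R} (hk : k * k = 0) (j : ℕ) :
    (1 + k) ^ j = 1 + j * k := by
  induction j with
  | zero => simp
  | succ j ih =>
    rw [pow_succ, ih]
    push_cast
    linear_combination (j : R) * hk

/-- A unit of odd prime order that is one modulo every prime generates `1 + n / p`. -/
lemma order_p [NeZero n] {p : ℕ} (hp : p.Prime) (hodd : Odd p) (hpn : p ∣ n) {w : (ZMod n)ˣ}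
    (hw : w ≠ 1) (hwp : w ^ p = 1)
    (h1 : ∀ (q : ℕ) (_ : q.Prime) (hq : q ∣ n), ZMod.castHom hq (ZMod q) (w : ZMod n) = 1) :
    p ^ 2 ∣ n ∧ ∃ j : ℕ, ((w ^ j : (ZMod n)ˣ) : ZMod n) = 1 + (n / p : ℕ) := by
  obtain ⟨d, hd⟩ : ∃ d : ZMod n, (w : ZMod n) = 1 + d := ⟨w - 1, by ring⟩
  have hd0 : ∀ (q : ℕ) (_ : q.Prime) (hq : q ∣ n), ZMod.castHom hq (ZMod q) d = 0 := by
    intro q hq hqn
    have := h1 q hq hqn
    rwa [hd, map_add, map_one, add_eq_left] at this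
  have hpd : p ∣ d.val := by
    have := (cast_eq_iff hpn d 0).1 (by simpa using hd0 p hp hpn)
    exact Nat.modEq_zero_iff_dvd.1 this
  obtain ⟨d', hd'⟩ := hpd
  have hdd : d = p * d' := by rw [← ZMod.natCast_zmod_val d, hd']; push_cast; rfl
  obtain ⟨h, hh⟩ := hodd
  obtain ⟨e, he⟩ := binom3 d p
  have hch : p.choose 2 = p * h := by
    rw [Nat.choose_two_right, hh]
    have : (2 * h + 1) * (2 * h + 1 - 1) = (2 * h + 1) * h * 2 := by
      rw [Nat.add_sub_cancel]; ring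
    rw [this, Nat.mul_div_cancel _ (by norm_num)]
  have hw1 : (1 + d) ^ p = 1 := by rw [← hd, ← Units.val_pow_eq_pow_val, hwp, Units.val_one]
  have hu : IsUnit (1 + d * (h + d' * e)) := unit_of_primes fun q hq hqn => by
    have := Fact.mk hq
    rw [map_add, map_mul, hd0 q hq hqn, zero_mul, add_zero, map_one]
    exact one_ne_zero
  have hz : (p : ZMod n) * d = 0 := by
    apply hu.mul_right_cancel
    rw [hch] at he
    push_cast at he
    linear_combination hw1 - he - d ^ 2 * e * hdd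
  obtain ⟨m, hm⟩ := hpn
  have hnp : n / p = m := by rw [hm, Nat.mul_div_cancel_left _ hp.pos]
  have hmd : m ∣ d.val := by
    have : ((p * d.val : ℕ) : ZMod n) = 0 := by push_cast; rw [ZMod.natCast_zmod_val, hz]
    rw [ZMod.natCast_eq_zero_iff] at this
    exact Nat.dvd_of_mul_dvd_mul_left hp.pos (hm ▸ this)
  obtain ⟨k, hk⟩ := hmd
  have hpk : ¬ p ∣ k := by
    rintro ⟨k', rfl⟩
    apply hw
    ext
    rw [hd, ← ZMod.natCast_zmod_val d, hk, ← mul_assoc, mul_comm m p, ← hm]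
    simp
  have hpm : p ∣ m := (hp.dvd_mul.1 (hk ▸ ⟨d', hd'⟩)).resolve_right hpk
  have hpm0 : (p : ZMod n) * m = 0 := by rw [← Nat.cast_mul, ← hm, ZMod.natCast_self]
  refine ⟨by rw [hm, sq]; exact Nat.mul_dvd_mul_left p hpm, ?_⟩
  obtain ⟨j, -, hj⟩ := Nat.exists_mul_mod_eq_one_of_coprime
    ((hp.coprime_iff_not_dvd.2 hpk).symm) hp.one_lt
  have hdm : d = m * k := by rw [← ZMod.natCast_zmod_val d, hk]; push_cast; rfl
  have hj2 : ((k * j : ℕ) : ZMod n) = p * (k * j / p : ℕ) + 1 := by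
    conv_lhs => rw [← Nat.div_add_mod (k * j) p, hj]
    push_cast; rfl
  refine ⟨j, ?_⟩
  rw [Units.val_pow_eq_pow_val, hd, one_add_pow_sq (by linear_combination d * hdd + d' * hz), hnp,
    hdm]
  push_cast at hj2
  linear_combination (m : ZMod n) * hj2 + ((k * j / p : ℕ) : ZMod n) * hpm0

theorem necessary [NeZero n] (hodd : Odd n) (U : Subgroup (ZMod n)ˣ) (σ : Equiv.Perm (ZMod n))
    (hna : ¬ IsAffine σ) (h1 : ∀ h ∈ affOf U, σ * h * σ⁻¹ ∈ affOf U)
    (h2 : ∀ h ∈ affOf U, σ⁻¹ * h * σ ∈ affOf U) (hpm : ∀ τ ∈ cosetOf U σ, Panmagic τ) :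
    (∃ p : ℕ, p.Prime ∧ p ^ 2 ∣ n ∧ (∃ u ∈ U, (u : ZMod n) = 1 + (n / p : ℕ)) ∧
      ∀ u ∈ U, (u : ZMod n).val ≡ 1 [MOD p]) ∧
    ∃ a : (ZMod n)ˣ, ∀ u ∈ U, IsUnit ((a : ZMod n) * u + 1) ∧ IsUnit ((a : ZMod n) * u - 1) := by
  obtain ⟨u, hu, b, hρ⟩ := h1 _ (affPerm_mem U.one_mem 1)
  have step : ∀ x, σ (x + 1) = u * σ x + b := by
    intro x
    simpa [affPerm_apply] using hρ (σ x)
  have iter : ∀ (k : ℕ) (x : ZMod n),
      σ (x + k) = (u : ZMod n) ^ k * σ x + b * ∑ i ∈ range k, (u : ZMod n) ^ i := by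
    intro k
    induction k with
    | zero => intro x; simp
    | succ k ih =>
      intro x
      rw [Nat.cast_succ, ← add_assoc, step, ih, Finset.sum_range_succ']
      simp only [pow_succ, pow_zero, ← Finset.sum_mul]
      ring
  have F : ∀ y : ZMod n, y = (u : ZMod n) ^ n * y + b * ∑ i ∈ range n, (u : ZMod n) ^ i := by
    intro y
    obtain ⟨x, rfl⟩ := σ.surjective y
    rw [← iter]
    simp
  have hun : (u : ZMod n) ^ n = 1 := by
    have a0 := F 0
    have a1 := F 1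
    linear_combination a0 - a1
  have hb : IsUnit b := by
    have := iter (σ.symm 1 - σ.symm 0).val (σ.symm 0)
    rw [ZMod.natCast_zmod_val] at this
    simp only [add_sub_cancel, Equiv.apply_symm_apply, mul_zero, zero_add] at this
    exact IsUnit.of_mul_eq_one _ this.symm
  have hru : ∀ (q : ℕ) (_ : q.Prime) (hq : q ∣ n), ZMod.castHom hq (ZMod q) (u : ZMod n) = 1 := by
    intro q hq hqn
    have := Fact.mk hq
    by_contra hne
    have hne' : 1 - ZMod.castHom hqn (ZMod q) (u : ZMod n) ≠ 0 := sub_ne_zero.2 (Ne.symm hne)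
    obtain ⟨y, hy⟩ := ZMod.ringHom_surjective (ZMod.castHom hqn (ZMod q))
      (ZMod.castHom hqn (ZMod q) b / (1 - ZMod.castHom hqn (ZMod q) (u : ZMod n)))
    obtain ⟨x0, rfl⟩ := σ.surjective y
    have key : ∀ k : ℕ, ZMod.castHom hqn (ZMod q) (σ (x0 + k)) =
        ZMod.castHom hqn (ZMod q) (σ x0) := by
      intro k
      induction k with
      | zero => simp
      | succ k ih =>
        rw [Nat.cast_succ, ← add_assoc, step, map_add, map_mul, ih, hy]
        field_simp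
        ring
    refine not_const hq hqn σ.surjective (ZMod.castHom hqn (ZMod q) (σ x0)) fun x => ?_
    have := key (x - x0).val
    rwa [ZMod.natCast_zmod_val, add_sub_cancel] at this
  have hlin : ∀ (q : ℕ) (_ : q.Prime) (hq : q ∣ n) (x : ZMod n),
      ZMod.castHom hq (ZMod q) (σ x) = ZMod.castHom hq (ZMod q) (σ 0 + b * x) := by
    intro q hq hqn x
    have := iter x.val 0
    rw [ZMod.natCast_zmod_val, zero_add] at this
    rw [this]
    conv_rhs => rw [← ZMod.natCast_zmod_val x]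
    simp only [map_add, map_mul, map_pow, map_sum, hru q hq hqn, one_pow, one_mul, sum_const,
      card_range, nsmul_eq_mul, mul_one, map_natCast]
  have hu1 : u ≠ 1 := by
    rintro rfl
    refine hna ⟨hb.unit, σ 0, fun i => ?_⟩
    have := iter i.val 0
    rw [ZMod.natCast_zmod_val, zero_add] at this
    simp only [Units.val_one, one_pow, one_mul, sum_const, card_range, nsmul_eq_mul, mul_one,
      ZMod.natCast_zmod_val] at this
    rw [this, IsUnit.unit_spec]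
    ring
  constructor
  · obtain ⟨p, hp, hpo⟩ := Nat.exists_prime_and_dvd (orderOf_eq_one_iff.not.2 hu1)
    have hon : orderOf u ∣ n := orderOf_dvd_of_pow_eq_one (by ext; simpa using hun)
    have hpn : p ∣ n := hpo.trans hon
    have ho : orderOf (u ^ (orderOf u / p)) = p := orderOf_pow_orderOf_div (orderOf_pos u).ne' hpo
    obtain ⟨h3, j, hj⟩ := order_p hp (hodd.of_dvd_nat hpn) hpn (w := u ^ (orderOf u / p))
      (fun h => hp.one_lt.ne' (by rw [← ho, h, orderOf_one]))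
      (orderOf_dvd_iff_pow_eq_one.1 ho.dvd)
      fun q hq hqn => by rw [Units.val_pow_eq_pow_val, map_pow, hru q hq hqn, one_pow]
    refine ⟨p, hp, h3, ⟨_, U.pow_mem (U.pow_mem hu _) j, hj⟩, fun w hw => ?_⟩
    obtain ⟨v, -, c, hη⟩ := h2 _ (affPerm_mem hw 0)
    have refl : ∀ x, σ (v * x + c) = w * σ x := by
      intro x
      rw [← hη x]
      simp [affPerm_apply]
    have hmv : ((v : ZMod n).val : ZMod n) = v := ZMod.natCast_zmod_val _
    generalize (v : ZMod n).val = m at hmv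
    have E : ∀ y : ZMod n, w * (u * y + b) =
        (u : ZMod n) ^ m * (w * y) + b * ∑ i ∈ range m, (u : ZMod n) ^ i := by
      intro y
      obtain ⟨x, rfl⟩ := σ.surjective y
      rw [← refl x, ← iter, ← step, ← refl, hmv, mul_add, mul_one, add_right_comm]
    have hum : (u : ZMod n) ^ m = u := by
      have a0 := E 0
      have a1 := E 1
      apply w.isUnit.mul_left_cancel
      linear_combination a0 - a1
    have hG : ∑ i ∈ range m, (u : ZMod n) ^ i = w := by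
      have a0 := E 0
      apply hb.mul_left_cancel
      linear_combination -a0
    have hom : m ≡ 1 [MOD orderOf u] := by
      rw [← pow_eq_pow_iff_modEq]
      ext; simpa using hum
    refine ((cast_eq_iff hpn _ m).1 ?_).trans (hom.of_dvd hpo)
    rw [← hG]
    simp only [map_sum, map_pow, hru p hp hpn, one_pow, sum_const, card_range, nsmul_eq_mul,
      mul_one]
  · refine ⟨hb.unit, fun w hw => ?_⟩
    obtain ⟨g1, g2⟩ := hpm (σ * affPerm w 0) (mem_cosetOf.2 ⟨_, affPerm_mem hw 0, rfl⟩)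
    constructor
    · refine unit_of_primes fun q hq hqn h => not_const hq hqn g1.2
        (ZMod.castHom hqn (ZMod q) (σ 0)) fun x => ?_
      rw [IsUnit.unit_spec] at h
      simp only [map_add, map_mul, map_one, Equiv.Perm.mul_apply, affPerm_apply, add_zero,
        hlin q hq hqn (w * x)] at h ⊢
      linear_combination ZMod.castHom hqn (ZMod q) x * h
    · refine unit_of_primes fun q hq hqn h => not_const hq hqn g2.2
        (ZMod.castHom hqn (ZMod q) (σ 0)) fun x => ?_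
      rw [IsUnit.unit_spec] at h
      simp only [map_add, map_sub, map_mul, map_one, Equiv.Perm.mul_apply, affPerm_apply, add_zero,
        hlin q hq hqn (w * x)] at h ⊢
      linear_combination ZMod.castHom hqn (ZMod q) x * h

lemma quad_bij [NeZero n] {k α : ZMod n} (hk : k * k = 0) (hα : IsUnit α) (β γ : ZMod n)
    {f : ZMod n → ZMod n} (hf : ∀ x, f x = α * x + β + k * (x + γ) ^ 2) : Function.Bijective f := by
  refine Finite.injective_iff_bijective.1 fun x y h => ?_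
  rw [hf, hf] at h
  apply (hα.mul hα).mul_left_cancel
  linear_combination (α - k * (x + y + 2 * γ)) * h + (x - y) * (x + y + 2 * γ) ^ 2 * hk

theorem sufficient [NeZero n] (hodd : Odd n) (U : Subgroup (ZMod n)ˣ) {p : ℕ} (hp : p.Prime)
    (hpn : p ^ 2 ∣ n) {u : (ZMod n)ˣ} (hu : u ∈ U) (huk : (u : ZMod n) = 1 + (n / p : ℕ))
    (hU : ∀ w ∈ U, (w : ZMod n).val ≡ 1 [MOD p]) {a : (ZMod n)ˣ}
    (ha : ∀ w ∈ U, IsUnit ((a : ZMod n) * w + 1) ∧ IsUnit ((a : ZMod n) * w - 1)) :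
    ∃ σ : Equiv.Perm (ZMod n), ¬ IsAffine σ ∧ (∀ π ∈ affOf U, σ⁻¹ * π * σ ∈ affOf U) ∧
      ∀ τ ∈ cosetOf U σ, Panmagic τ := by
  obtain ⟨m, hm⟩ := hpn
  have hnp : n / p = p * m := by rw [hm, sq, mul_assoc, Nat.mul_div_cancel_left _ hp.pos]
  have hn2 : n = p * (n / p) := by rw [hnp, hm]; ring
  have hlt : n / p < n := Nat.div_lt_self (NeZero.pos n) hp.one_lt
  have hpos : n / p ≠ 0 := fun h => NeZero.ne n (by rw [hn2, h, mul_zero])
  have hk0 : ((n / p : ℕ) : ZMod n) ≠ 0 := fun h =>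
    absurd (Nat.le_of_dvd (Nat.pos_of_ne_zero hpos) ((ZMod.natCast_eq_zero_iff _ _).1 h)) hlt.not_ge
  have hpk : (p : ZMod n) * (n / p : ℕ) = 0 := by rw [← Nat.cast_mul, ← hn2, ZMod.natCast_self]
  have hkp : ((n / p : ℕ) : ZMod n) = p * m := by rw [hnp, Nat.cast_mul]
  generalize ((n / p : ℕ) : ZMod n) = k at huk hk0 hpk hkp
  have hkk : k * k = 0 := by linear_combination k * hkp + (m : ZMod n) * hpk
  have hkw : ∀ w ∈ U, k * (w : ZMod n) = k := by
    intro w hw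
    have h1 := hU w hw
    rw [Nat.ModEq, Nat.mod_eq_of_lt hp.one_lt] at h1
    have h2 : (w : ZMod n) = p * ((w : ZMod n).val / p : ℕ) + 1 := by
      conv_lhs => rw [← ZMod.natCast_zmod_val (w : ZMod n), ← Nat.div_add_mod (w : ZMod n).val p, h1]
      push_cast; rfl
    linear_combination k * h2 + (((w : ZMod n).val / p : ℕ) : ZMod n) * hpk
  let σ : Equiv.Perm (ZMod n) := Equiv.ofBijective (fun x => a * x + k * x ^ 2)
    (quad_bij hkk a.isUnit 0 0 fun x => by simp)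
  have hσ : ∀ x, σ x = a * x + k * x ^ 2 := fun _ => rfl
  refine ⟨σ, ?_, ?_, ?_⟩
  · rintro ⟨a', b', h⟩
    have h0 := h 0
    have h1 := h 1
    have h2 := h (-1)
    rw [hσ] at h0 h1 h2
    obtain ⟨r, hr⟩ := hodd.of_dvd_nat (Dvd.intro _ hn2.symm)
    have hp2 : (p : ZMod n) = 2 * r + 1 := by rw [hr]; push_cast; rfl
    apply hk0
    linear_combination hpk - k * hp2 - (r : ZMod n) * (h1 + h2 - 2 * h0)
  · rintro π ⟨w, hw, b, hπ⟩
    obtain ⟨c, rfl⟩ := σ.surjective b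
    have hj : (((-2 * c * (a⁻¹ : (ZMod n)ˣ) : ZMod n).val : ℕ) : ZMod n) =
        -2 * c * (a⁻¹ : (ZMod n)ˣ) := ZMod.natCast_zmod_val _
    generalize (-2 * c * (a⁻¹ : (ZMod n)ˣ) : ZMod n).val = j at hj
    have hm2 := U.mul_mem hw (U.pow_mem hu j)
    have h5 := hkw _ hm2
    have h6 := hkw _ hw
    refine ⟨_, hm2, c, fun i => ?_⟩
    rw [Equiv.Perm.mul_apply, Equiv.Perm.mul_apply, Equiv.Perm.inv_eq_iff_eq, hπ, hσ, hσ, hσ]
    have h7 : ((w * u ^ j : (ZMod n)ˣ) : ZMod n) * a = w * a - 2 * c * k := by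
      have h8 : (a⁻¹ : (ZMod n)ˣ) * (a : ZMod n) = 1 := by simp
      rw [Units.val_mul, Units.val_pow_eq_pow_val, huk, one_add_pow_sq hkk, hj]
      linear_combination (-2 * c * (a⁻¹ : (ZMod n)ˣ) * a) * h6 - 2 * c * k * h8
    generalize ((w * u ^ j : (ZMod n)ˣ) : ZMod n) = v at h5 h7
    linear_combination i ^ 2 * h6 - i * h7 - (i ^ 2 * (v + 1) + 2 * i * c) * h5
  · rintro τ ⟨w, hw, b, hτ⟩
    have h6 := hkw _ hw
    constructor
    · refine quad_bij hkk (ha w hw).1 (a * b) b fun x => ?_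
      rw [hτ, hσ]
      linear_combination (x ^ 2 * (w + 1) + 2 * x * b) * h6
    · refine quad_bij hkk (ha w hw).2 (a * b) b fun x => ?_
      rw [hτ, hσ]
      linear_combination (x ^ 2 * (w + 1) + 2 * x * b) * h6

theorem classification (n : ℕ) (hn : Odd n) (U : Subgroup (ZMod n)ˣ) :
    (∃ σ : Equiv.Perm (ZMod n), ¬ IsAffine σ ∧
      (∃ N : ℕ, 2 ≤ N ∧ ∀ l : List (Equiv.Perm (ZMod n)), l.length = N →
        (∀ τ ∈ l, τ ∈ cosetOf U σ) → l.prod ∈ cosetOf U σ) ∧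
      ∀ τ ∈ cosetOf U σ, Panmagic τ) ↔
    (∃ p : ℕ, p.Prime ∧ p ^ 2 ∣ n ∧ (∃ u ∈ U, (u : ZMod n) = 1 + (n / p : ℕ)) ∧
      ∀ u ∈ U, (u : ZMod n).val ≡ 1 [MOD p]) ∧
    ∃ a : (ZMod n)ˣ, ∀ u ∈ U, IsUnit ((a : ZMod n) * u + 1) ∧ IsUnit ((a : ZMod n) * u - 1) := by
  have : NeZero n := ⟨fun h => by simp [h] at hn⟩
  constructor
  · rintro ⟨σ, hna, ⟨N, hN, hcl⟩, hpm⟩
    simp only [mem_cosetOf] at hcl
    obtain ⟨h1, h2⟩ := normalises (affOf U) σ N hN hcl
    exact necessary hn U σ hna h1 h2 hpm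
  · rintro ⟨⟨p, hp, hpn, ⟨u, hu, huk⟩, hU⟩, a, ha⟩
    obtain ⟨σ, h1, h2, h3⟩ := sufficient hn U hp hpn hu huk hU ha
    refine ⟨σ, h1, ?_, h3⟩
    simp only [mem_cosetOf]
    exact closed_of_normalises (affOf U) σ h2

end Pool.Agent.P.MP_72c4d1_al
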