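import Mathlib
import Pool.Agent.P.MP_72c4d1_al.Defs
import Pool.Agent.P.MP_72c4d1_al.Main

open Pool.Agent.P.MP_72c4d1_al

theorem Pool.Agent.P.MP_72c4d1_al.VariantNoNonAffine.result :
    ¬ ∃ (n : ℕ) (σ : Equiv.Perm (ZMod n)),
      5 ≤ n ∧ Nat.gcd n 6 = 1 ∧ ¬ IsAffine σ ∧
      (∃ N : ℕ, 2 ≤ N ∧ ∀ l : List (Equiv.Perm (ZMod n)), l.length = N →
        (∀ τ ∈ l, τ ∈ coset σ) → l.prod ∈ coset σ) ∧
      ∀ τ ∈ coset σ, Panmagic τ :=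
  Pool.Agent.P.MP_72c4d1_al.main
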